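import Pool.Agent.H882.FzImg

/-!
# MP_0704bf_ag: the atypical Hodge locus of sums of elliptic curves over `ℚ̄ (T)`, for the subvarieties
which degenerate at a *given* algebraic point whose Hodge structure is generic

**The variation.** Let `R_i = num_i / den_i` (`i ≤ n`) be nonconstant rational functions with algebraic
coefficients, and let `E_i` be an elliptic curve over (a finite extension of) `ℚ̄ (T)` with `j`-invariant `R_i`,
for example `y² = 4 x³ - g (x + 1)`, `g = 27 R_i / (R_i - 1728)`. On (a finite covering of) the open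
subset `U` of `ℂ^n` on which everything is defined there is the `ℤ`VHS `𝕍 = ⨁ H^1 (E_i)` with the period
map `Φ : U → Y(1)^n`, `x ↦ (R_1 (x_1), …, R_n (x_n))` (`Y(1)^n` is identified with `ℂ^n` by
`jj = j = E₄³ / Δ`, and finite coverings do not change the dimensions in what follows). `Φ` is
quasi-finite.

**The families.** Let `X_(t,λ) ⊂ ℂ^n` be a family of sets of dimension `m` over a field `F ⊂ ℂ`, with
parameters `t ∈ ℕ`, `λ ∈ ℂ^q` (`Family`, `Family.member`), which degenerates for `t = 0` to the union of the
`m`-dimensional coordinate subspaces: for every set `J` of `m + 1` coordinates there is an equation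

  `lead_J ∏_(i ∈ J) x_i ^ e_(J,i) + t rest_J (λ, x) = 0`,  `0 ≠ lead_J ∈ F`,

with a polynomial `rest_J` over `F` of degree at most `e_(J,i)` in `x_i` (so it is independent of the
`x_i`, `i ∉ J`). For example this is true for the homothetic images `t λ V` (`λ` a number) of an arbitrary
subvariety `V` of dimension `m` in general position at infinity, that is, such that for each `J` there is an
equation of `V` in the `x_i`, `i ∈ J`, which contains the monomial of maximal exponents (all `V` have this
property after a general projective linear transformation in each coordinate; here `F` is a field of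
definition of `V`, for example `F = ℂ`), and for the hypersurfaces `x_1^a_1 ⋯ x_n^a_n = t g (λ, x)`.

**Theorem** (`result`). (I) Every residue class `c₀ mod N` of `ℤ^n` contains a residue class `c' mod M`, all
elements `c` of which have coordinates `c_i ≠ 0, 1728` and satisfy the Galois condition `Separated` below.

(II) Let `c` be a point of `Y(1)^n` with algebraic coordinates `c_i ≠ 0, 1728` which satisfies
`Separated`. There are `n + 1` sets `P_0, …, P_n` of prime numbers, such that the sum of the reciprocals of
the elements of each `P_a` is divergent, and a set `N ⊂ ℕ` of density zero with the following properties.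
Let `R_i = num_i / den_i` be *any* rational functions with algebraic coefficients, `s` *any* point with
algebraic coordinates with `den_i (s_i) ≠ 0` and `R_i (s_i) = c_i`, let `F` be *any* subfield of `ℂ`, and `X`
*any* family over `F` as above, of any dimension `m` and with any number `q` of parameters.
(A) There is a number `B` such that the image of `s + X_(t,λ)` under `Φ = (R_1, …, R_n)` has no atypical
intersection over `F` with special subvarieties of `Y(1)^n` (`NoAtypical`), for all `t` which are divisible
by an element `p_a > B` of `P_a` for each `a`, and for all algebraic integers `λ_i`.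
(B) There is a number `T` such that the same is true for all `t ≥ T`, `t ∉ N`.

`NoAtypical F m Y` means that for each point `y` of `Y ∩ Z`, `Z` special of dimension `r`, the sets of
coordinates of `y` which are algebraically independent over `F` have at most `m + r - n` elements (so there
is no such point if `r < n - m`). Now let `S` be a smooth irreducible locally closed subvariety of
dimension `m` of `s + X_(t,λ)` in `U`. We can assume that `F` is countable, and then every component `W`
of the inverse image of `Z` in `S` has a point whose coordinates generate a field of transcendence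
degree `dim W` over `F` (`s` and the `λ_i` are algebraic); the same is true for its image in `Y(1)^n`. So
`dim W ≤ m + r - n`. In particular `Φ (S)` is not contained in a special subvariety `Z ≠ Y(1)^n`, so that
`Γ \ D = Y(1)^n` is the quotient of the Mumford-Tate domain of `𝕍` on `S`, and
`codim Φ (W) ≥ codim Φ (S) + codim Γ' \ D'` for all special subvarieties `W` of `S`. So there are no atypical
special subvarieties of `S` outside of `S^sing`. If the analytic space `Φ (S)` is smooth, for example for
`R_i = T` and a smooth closed `S = s + X_(t,λ)`, then `HL (S, 𝕍^⊗)_atyp` is empty and Q1 is true for `S` and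
`𝕍`; in general the inequality shows that the special subvarieties which are contained in `S^sing` have
also at most the typical dimension.

**The centre.** The elements of `neighbours ℓ c_k` are the `j`-invariants of the quotients `A_k / C`, where
`A_k` is an elliptic curve over the number field `K = ℚ (c_1, …, c_n)` with `j (A_k) = c_k` and `C` runs through
the `ℓ + 1` subgroups of order `ℓ`. `Separated c` says that there are primes `ℓ_(a,i) ≡ 1 mod 4`
(`a = 0, …, n`, `i = 1, …, n`) with `ℓ_(a,i) + 1` different neighbours of each `c_k`, and automorphisms `σ_a` of `ℂ`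
which fix the `c_k` and the roots of unity of order `ℓ_(a,i)`, such that `σ_b` fixes no `ℓ_(a,i)`-neighbour of
`c_k` if `(b,k) = (a,i)`, and exactly two of them otherwise. By (I) the theorem is true without any
hypothesis for a set of integral points `c` of positive density, which contains an open dense subset of
`ℤ^n` for the congruence topology, and for all algebraic `s` with `Φ (s) = c`. *Moreover all Hodge generic
points `c` with algebraic coordinates satisfy the condition by Serre's open image theorem* (this is not
proved here, and it is only used for this remark): if the `A_k` are without complex multiplication and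
pairwise not isogenous over the algebraic closure, the image of the absolute Galois group of the field
generated by `K` and all roots of unity in `∏_ℓ ∏_k SL_2 (𝔽_ℓ)` is everything for each finite set of
sufficiently large primes `ℓ` (Serre, Propriétés galoisiennes des points d'ordre fini des courbes
elliptiques, for two curves together with Faltings' isogeny theorem; for several curves and primes by
the lemmas of Goursat and Ribet). So the theorem holds for *all* points `s ∈ U` with algebraic
coordinates at which the Hodge structure `𝕍_s = ⨁ H^1 (E_(i,s))` is generic, that is, has Mumford-Tate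
group `GL_2 ×_det ⋯ ×_det GL_2`. This condition is natural, since the families degenerate to unions
of coordinate subspaces through the point `s`.

**Relation to earlier results.** Our result `MP_0704bf_ag.NumberFieldCentres` is about almost all pairs
`(s, t)` in `𝓞_K^n × ℕ` for given `R_i`: it says nothing about a given centre `s`, nothing about centres whose
coordinates are not integral, and its null set depends on the `R_i`. Our result
`MP_d83ecd_ag.FixedCentres` is the case `R_i = T`. In
`MP_d83ecd_ag.OrdinaryAndMultiplicativeCentres` (B) (`R_i = T`) the centre is given, and `t` is divisible by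
a high power, which depends on the variety, of one prime number. New here: a given centre and almost all
`t` for all period maps `(R_1, …, R_n)`, with sets `P_a` and `N` which depend only on the image
`c = Φ (s)` (there are infinitely many `(R_i)` and `s` for one `c`).

**Idea of the proof.** Let `Φ'` be an embedding of a finitely generated field into `ℂ_p`, `p > B` a prime
divisor of `t`, such that the finitely many algebraic numbers and the coefficients of the family are units.
For each point `x` of the family at most `m` coordinates have `|x_i| ≥ 1`, and otherwise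
`R_i (s_i + x_i) ≡ R_i (s_i) = c_i`, since `den_i (s_i)` is a unit. So the image has at most `m` coordinates which
are not near to the given point `c`, and the theorem on such points (`fz_master`) applies. Its proof uses
Chebotarev's theorem for the neighbours of the `c_k`, Kronecker's congruence for isogenies, and canonical
lifts; see the explanation in `MP_d83ecd_ag.FixedCentres`: for the primes `p ∈ P_a` the curves `A_k` have
ordinary reductions at a prime above `p` which are geometrically not isogenous to each other, and the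
canonical lifts for different types `a` are not isogenous. If `t` is divisible by large primes
`p_0, …, p_n` of the `n + 1` types, one of them is good for a given atypical point: the coordinates which
are near to `c_k` are not isogenous to each other, and no coordinate is a singular modulus near to `c_k`
for two different types.
-/

set_option autoImplicit false

namespace Pool.Agent.Results.MP_0704bf_ag.FixedCentres

open UpperHalfPlane H294ZP Polynomial

/-- A special subvariety of dimension `r` of `Y(1)^n`: a map `cls` from the coordinates onto `r`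
classes (`none` for the constant coordinates), an integral matrix of positive determinant for each
coordinate, and a CM point for each coordinate. -/
structure SpecialVariety (n r : ℕ) where
  cls : Fin n → Option (Fin r)
  surj : ∀ l : Fin r, ∃ i, cls i = some l
  mat : Fin n → Matrix (Fin 2) (Fin 2) ℤ
  det_pos : ∀ i, 0 < (mat i).det
  cm : Fin n → ℍ
  isCM : ∀ i, IsCM (cm i)

/-- The points of a special subvariety: the constant coordinates are the singular moduli
`j (cm i)`, the other coordinates are `j (g_i z_l)`, where `l` is the class of `i`, `g_i = mat i` and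
`z_1, …, z_r` are free parameters in the upper half plane. -/
def SpecialVariety.locus {n r : ℕ} (Z : SpecialVariety n r) : Set (Fin n → ℂ) :=
  {x | ∃ z : Fin r → ℍ, ∀ i, (Z.cls i = none → x i = jj (Z.cm i)) ∧
    ∀ l, Z.cls i = some l → ∃ w : ℍ,
      (w : ℂ) * (Z.mat i 1 0 * z l + Z.mat i 1 1) = Z.mat i 0 0 * z l + Z.mat i 0 1 ∧ x i = jj w}

/-- For each special subvariety `Z` of dimension `r`, and each point `y` of `Y ∩ Z`: families of
coordinates which are algebraically independent over `F` have at most `m + r - n` elements (in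
particular there is no such point if `m + r < n`). -/
def NoAtypical {n : ℕ} (F : Subfield ℂ) (m : ℕ) (Y : Set (Fin n → ℂ)) : Prop :=
  ∀ (r : ℕ) (Z : SpecialVariety n r), ∀ y ∈ Y, y ∈ Z.locus →
    ∀ W : Finset (Fin n), AlgebraicIndependent F (fun i : W => y i) → n + W.card ≤ m + r

/-- A family of subsets of `ℂ^n` of dimension `m` over the field `F`, with parameters `t ∈ ℕ`, `λ ∈ ℂ^q`,
which degenerates for `t = 0` to the union of the coordinate subspaces of dimension `m`: for each set
`J` of `m + 1` coordinates there is an equation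
`lead_J ∏_(i ∈ J) x_i ^ (expo_J i) + t rest_J (λ, x) = 0`, `0 ≠ lead_J ∈ F`, with a polynomial `rest_J`
over `F` of degree at most `expo_J i` in `x_i`. -/
structure Family (F : Subfield ℂ) (n q m : ℕ) where
  expo : Finset (Fin n) → Fin n → ℕ
  lead : Finset (Fin n) → F
  rest : Finset (Fin n) → MvPolynomial (Fin q ⊕ Fin n) F
  expo_eq_zero : ∀ J i, i ∉ J → expo J i = 0
  lead_ne_zero : ∀ J, lead J ≠ 0
  degree_le : ∀ J i, (rest J).degreeOf (Sum.inr i) ≤ expo J i

/-- The member of the family with the parameters `t, λ`. -/
def Family.member {F : Subfield ℂ} {n q m : ℕ} (X : Family F n q m) (t : ℕ) (lam : Fin q → ℂ) :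
    Set (Fin n → ℂ) :=
  {x | ∀ J : Finset (Fin n), J.card = m + 1 →
    (X.lead J : ℂ) * ∏ i, x i ^ X.expo J i +
      (t : ℂ) * MvPolynomial.aeval (Sum.elim lam x) (X.rest J) = 0}

/-- The image of the translate `s + X` under the rational functions `R_i = num_i / den_i`: the points
`(R_i (s_i + x_i))` with `x ∈ X` and `den_i (s_i + x_i) ≠ 0`. -/
def image {n : ℕ} (num den : Fin n → ℂ[X]) (s : Fin n → ℂ) (X : Set (Fin n → ℂ)) :
    Set (Fin n → ℂ) :=
  {y | ∃ x ∈ X, ∀ i, (den i).eval (s i + x i) ≠ 0 ∧
    y i * (den i).eval (s i + x i) = (num i).eval (s i + x i)}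

/-- The numbers `j (g τ)`, where `j (τ) = s` and `g` is an integral matrix of determinant `ℓ`: the
`j`-invariants of the quotients by subgroups of order `ℓ` of an elliptic curve with `j`-invariant `s`. -/
def neighbours (ℓ : ℕ) (s : ℂ) : Set ℂ :=
  {y | ∃ (g : Matrix (Fin 2) (Fin 2) ℤ) (τ w : ℍ), g.det = ℓ ∧
    (w : ℂ) * (g 1 0 * τ + g 1 1) = g 0 0 * τ + g 0 1 ∧ jj τ = s ∧ jj w = y}

/-- The Galois condition for the centre: there are primes `ℓ_(a,i) ≡ 1 mod 4` (`a = 0, …, n`) with
`ℓ_(a,i) + 1` neighbours of each `s_k`, and automorphisms `σ_a` of `ℂ` which fix the `s_k` and the roots of unity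
of order `ℓ_(a,i)`, such that `σ_b` fixes no `ℓ_(a,i)`-neighbour of `s_k` if `(b, k) = (a, i)`, and exactly two of
them otherwise. -/
def Separated {n : ℕ} (s : Fin n → ℂ) : Prop :=
  ∃ (ℓ : Fin (n + 1) → Fin n → ℕ) (σ : Fin (n + 1) → ℂ ≃+* ℂ),
    (∀ a k, σ a (s k) = s k) ∧
    (∀ a i, (ℓ a i).Prime ∧ ℓ a i % 4 = 1 ∧ σ a (Complex.exp (2 * Real.pi * Complex.I / ℓ a i)) =
      Complex.exp (2 * Real.pi * Complex.I / ℓ a i)) ∧
    (∀ a i k, (neighbours (ℓ a i) (s k)).ncard = ℓ a i + 1) ∧
    (∀ a i, ∀ y ∈ neighbours (ℓ a i) (s i), σ a y ≠ y) ∧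
    ∀ a i b k, (b, k) ≠ (a, i) → {y | y ∈ neighbours (ℓ a i) (s k) ∧ σ b y = y}.ncard = 2

/-- `N` has density zero. -/
def DensityZero (N : Set ℕ) : Prop :=
  ∀ ε : ℝ, 0 < ε → ∃ H₀ : ℕ, ∀ H : ℕ, H₀ ≤ H → ((N ∩ Set.Icc 0 H).ncard : ℝ) ≤ ε * H

open Pool.Agent.H882 Pool.Agent.Y226

theorem main (n : ℕ) (c : Fin n → ℂ) (hc : ∀ i, IsAlgebraic ℚ (c i) ∧ c i ≠ 0 ∧ c i ≠ 1728)
    (hsep : Separated c) :
    ∃ (P : Fin (n + 1) → Set ℕ) (N : Set ℕ),
      (∀ a, (∀ p ∈ P a, p.Prime) ∧ ¬ Summable ((P a).indicator fun p : ℕ => (1 : ℝ) / p)) ∧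
      DensityZero N ∧
      ∀ (s : Fin n → ℂ) (num den : Fin n → ℂ[X]), (∀ i, IsAlgebraic ℚ (s i)) →
        (∀ i k, IsAlgebraic ℚ ((num i).coeff k) ∧ IsAlgebraic ℚ ((den i).coeff k)) →
        (∀ i, (den i).eval (s i) ≠ 0 ∧ (num i).eval (s i) = c i * (den i).eval (s i)) →
        ∀ (F : Subfield ℂ) (m q : ℕ) (X : Family F n q m),
          (∃ B : ℕ, ∀ t : ℕ, (∀ a, ∃ p ∈ P a, B < p ∧ p ∣ t) →
            ∀ lam : Fin q → ℂ, (∀ i, IsIntegral ℤ (lam i)) →
              NoAtypical F m (image num den s (X.member t lam))) ∧
          ∃ T : ℕ, ∀ t : ℕ, T ≤ t → t ∉ N →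
            ∀ lam : Fin q → ℂ, (∀ i, IsIntegral ℤ (lam i)) →
              NoAtypical F m (image num den s (X.member t lam)) := by
  classical
  obtain ⟨ℓ, σ, hsep'⟩ := hsep
  obtain ⟨c', hc'⟩ : ∃ c' : Fin n → QA, ∀ i, (c' i : ℂ) = c i :=
    ⟨fun i => ⟨c i, mem_QA.2 (hc i).1⟩, fun _ => rfl⟩
  obtain rfl : c = fun i => (c' i : ℂ) := funext fun i => (hc' i).symm
  obtain ⟨P, N, hP, hPd, hN, hNT, hmaster⟩ := fz_master (c := c') (fun i =>
    ⟨fun h => (hc i).2.1 (congrArg (fun z : QA => (z : ℂ)) h),
      fun h => (hc i).2.2 (congrArg (fun z : QA => (z : ℂ)) h)⟩)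
    (ℓ := ℓ) (σ := σ) hsep'
  refine ⟨P, N, fun a => ⟨hP a, (hPd a).not_summable⟩, hN,
    fun s num den hs hnd hsc F m q X => ?_⟩
  have hmain : ∃ B : ℕ, ∀ t : ℕ, (∀ a, ∃ p ∈ P a, B < p ∧ p ∣ t) →
      ∀ lam : Fin q → ℂ, (∀ i, IsIntegral ℤ (lam i)) →
        NoAtypical F m (image num den s (X.member t lam)) := ?_
  · refine ⟨hmain, ?_⟩
    obtain ⟨B, hB⟩ := hmain
    obtain ⟨T, hT⟩ := hNT B
    exact ⟨T, fun t ht htN lam hlam => hB t (hT t ht htN) lam hlam⟩
  obtain ⟨S, hS0, hSF, B₁, hB₁⟩ := fam_bad (m := m) X.expo X.lead X.rest X.expo_eq_zero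
    X.lead_ne_zero X.degree_le
  obtain ⟨B₂, hB₂⟩ := hmaster F S hS0 hSF
  -- the algebraic numbers
  let A : Finset ℂ := Finset.univ.biUnion fun i : Fin n =>
    ({s i, (c' i : ℂ), (den i).eval (s i)} : Finset ℂ) ∪
      ((num i).support.image (num i).coeff ∪ (den i).support.image (den i).coeff)
  have hden : ∀ i, (den i).eval (s i) ∈ QA := by
    intro i
    rw [Polynomial.eval_eq_sum, Polynomial.sum]
    exact sum_mem fun k _ => mul_mem (mem_QA.2 (hnd i k).2) (pow_mem (mem_QA.2 (hs i)) k)
  have hA : ∀ z ∈ A, z ∈ QA := by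
    intro z hz
    obtain ⟨i, -, hi⟩ := Finset.mem_biUnion.1 hz
    rcases Finset.mem_union.1 hi with hi | hi
    · rw [Finset.mem_insert, Finset.mem_insert, Finset.mem_singleton] at hi
      rcases hi with rfl | rfl | rfl
      · exact mem_QA.2 (hs i)
      · exact (c' i).2
      · exact hden i
    · rcases Finset.mem_union.1 hi with hi | hi
      · obtain ⟨k, -, rfl⟩ := Finset.mem_image.1 hi
        exact mem_QA.2 (hnd i k).1
      · obtain ⟨k, -, rfl⟩ := Finset.mem_image.1 hi
        exact mem_QA.2 (hnd i k).2
  obtain ⟨B₃, hB₃⟩ := int_large_all A hA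
  refine ⟨B₁ + B₂ + B₃, fun t ht lam hlam => ?_⟩
  intro r Z y hy hyZ W hind
  obtain ⟨x, hx, hxy⟩ := hy
  choose g hgP hgB hgt using ht
  refine hB₂ g (fun a => ⟨hgP a, by have := hgB a; omega⟩) m y (fun a => ?_) r
    ⟨Z.cls, Z.surj, Z.mat, Z.det_pos, Z.cm, Z.isCM⟩ hyZ W hind
  intro C _ _ _ Φ hpC hS
  have p1 := hP a (g a) (hgP a)
  have hp1 : ‖((g a : ℕ) : C)‖ < 1 := by
    rw [hpC]
    exact inv_lt_one_of_one_lt₀ (by exact_mod_cast p1.one_lt)
  obtain ⟨Bad, hBad1, hBad2⟩ := hB₁ (g a) p1 (by have := hgB a; omega) C Φ hpC hS t (hgt a) lam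
    hlam x hx
  refine ⟨Bad, hBad1, fun i hi => ?_⟩
  have hAi : ∀ z ∈ A, ‖Φ z‖ ≤ 1 ∧ (z ≠ 0 → ‖Φ z‖ = 1) :=
    hB₃ (g a) p1 (by have := hgB a; omega) C Φ hp1
  have hmemA : ∀ z, z ∈ (({s i, (c' i : ℂ), (den i).eval (s i)} : Finset ℂ) ∪
      ((num i).support.image (num i).coeff ∪ (den i).support.image (den i).coeff)) → z ∈ A :=
    fun z hz => Finset.mem_biUnion.2 ⟨i, Finset.mem_univ i, hz⟩
  refine img_near Φ (num i) (den i) (fun k hk => (hAi _ (hmemA _ ?_)).1)
    (fun k hk => (hAi _ (hmemA _ ?_)).1) (hAi _ (hmemA _ ?_)).1 (hBad2 i hi)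
    (hAi _ (hmemA _ ?_)).1 (hsc i).2 ((hAi _ (hmemA _ ?_)).2 (hsc i).1) (hxy i).2
  · exact Finset.mem_union_right _ (Finset.mem_union_left _ (Finset.mem_image_of_mem _ hk))
  · exact Finset.mem_union_right _ (Finset.mem_union_right _ (Finset.mem_image_of_mem _ hk))
  · exact Finset.mem_union_left _ (by simp)
  · exact Finset.mem_union_left _ (by simp)
  · exact Finset.mem_union_left _ (by simp)

/-- The theorem. -/
theorem result (n : ℕ) :
    (∀ (N : ℕ) (c₀ : Fin n → ℤ), 0 < N → ∃ (M : ℕ) (c' : Fin n → ℤ), 0 < M ∧ N ∣ M ∧
      (∀ i, (N : ℤ) ∣ c' i - c₀ i) ∧ ∀ c : Fin n → ℤ, (∀ i, (M : ℤ) ∣ c i - c' i) →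
        (∀ i, c i ≠ 0 ∧ c i ≠ 1728) ∧ Separated fun i => (c i : ℂ)) ∧
    ∀ c : Fin n → ℂ, (∀ i, IsAlgebraic ℚ (c i) ∧ c i ≠ 0 ∧ c i ≠ 1728) → Separated c →
    ∃ (P : Fin (n + 1) → Set ℕ) (N : Set ℕ),
      (∀ a, (∀ p ∈ P a, p.Prime) ∧ ¬ Summable ((P a).indicator fun p : ℕ => (1 : ℝ) / p)) ∧
      DensityZero N ∧
      ∀ (s : Fin n → ℂ) (num den : Fin n → ℂ[X]), (∀ i, IsAlgebraic ℚ (s i)) →
        (∀ i k, IsAlgebraic ℚ ((num i).coeff k) ∧ IsAlgebraic ℚ ((den i).coeff k)) →
        (∀ i, (den i).eval (s i) ≠ 0 ∧ (num i).eval (s i) = c i * (den i).eval (s i)) →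
        ∀ (F : Subfield ℂ) (m q : ℕ) (X : Family F n q m),
          (∃ B : ℕ, ∀ t : ℕ, (∀ a, ∃ p ∈ P a, B < p ∧ p ∣ t) →
            ∀ lam : Fin q → ℂ, (∀ i, IsIntegral ℤ (lam i)) →
              NoAtypical F m (image num den s (X.member t lam))) ∧
          ∃ T : ℕ, ∀ t : ℕ, T ≤ t → t ∉ N →
            ∀ lam : Fin q → ℂ, (∀ i, IsIntegral ℤ (lam i)) →
              NoAtypical F m (image num den s (X.member t lam)) := by
  refine ⟨?_, fun c hc hsep => main n c hc hsep⟩
  intro N c₀ hN
  obtain ⟨M, c, hM, hNM, hc, h⟩ := dense_sep n N hN c₀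
  refine ⟨M, c, hM, hNM, hc, fun s hs => ?_⟩
  obtain ⟨h0, ℓ, σ, hsep⟩ := h s hs
  exact ⟨h0, ℓ, σ, hsep⟩

end Pool.Agent.Results.MP_0704bf_ag.FixedCentres
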