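import Pool.Agent.H882.NfNull
import Pool.Agent.H882.PmLoc

/-!
# MP_0704bf_ag: the atypical Hodge locus of sums of elliptic curves over `K(T)`, for one hundred percent of
the translates by `𝓞_K^n` of degenerating families of arbitrary dimension (`K` a number field)

**The variation.** Let `K` be a number field with an embedding `σ` into `ℂ`, and let
`R_i = num_i / den_i` (`i ≤ n`) be nonconstant rational functions over `K`; `num_i` and `den_i` are
polynomials over the ring of integers `𝓞_K`. Let `E_i` be an elliptic curve over (a finite extension of)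
`K(T)` with `j`-invariant `R_i`, for example
`y² = 4 x³ - g (x + 1)`, `g = 27 R_i / (R_i - 1728)`. On (a finite covering of) the open subset `U` of
`ℂ^n` on which everything is defined there is the `ℤ`VHS `𝕍 = ⨁ H^1 (E_i)` with the period map
`Φ : U → Y(1)^n`, `x ↦ (R_1 (x_1), …, R_n (x_n))` (`Y(1)^n` is identified with `ℂ^n` by
`jj = j = E₄³ / Δ`, and finite coverings do not change the dimensions in what follows). `Φ` is
quasi-finite.

**The families.** Let `X_(t,λ) ⊂ ℂ^n` be a family of sets of dimension `m` over a field `F ⊂ ℂ`, with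
parameters `t ∈ ℕ`, `λ ∈ ℂ^q` (`Family`, `Family.member`), which degenerates for `t = 0` to the union of the
`m`-dimensional coordinate subspaces: for every set `J` of `m + 1` coordinates there is an equation

  `lead_J ∏_(i ∈ J) x_i ^ e_(J,i) + t rest_J (λ, x) = 0`,  `0 ≠ lead_J ∈ F`,

with a polynomial `rest_J` over `F` of degree at most `e_(J,i)` in `x_i` (so it is independent of the
`x_i`, `i ∉ J`). For example this is true for
* the homothetic images `t λ V` (`λ` a number) of an arbitrary subvariety `V` of dimension `m` in general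
  position at infinity, that is, such that for each `J` there is an equation of `V` in the `x_i`, `i ∈ J`,
  which contains the monomial of maximal exponents. All `V` have this property after a general
  projective linear transformation in each coordinate; here `F` is a field of definition of `V`, for
  example `F = ℂ`;
* hypersurfaces `x_1^a_1 ⋯ x_n^a_n = t g (λ, x)` (`m = n - 1`) and curves (`m = 1`) with equations
  `x_i x_j = t (a_ij + b_ij x_i + c_ij x_j + d_ij x_i x_j)`, with numbers `a_ij, …` in `F` or parameters.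

For `s ∈ 𝓞_K^n` let `s + X_(t,λ)` be the translate by `(σ (s_1), …, σ (s_n))`. So the translates degenerate to
the unions of the `m`-dimensional coordinate subspaces through the point `s` with coordinates in
`𝓞_K`, whose image under `Φ` is an interior point of `Y(1)^n`, without any hypothesis on its reductions
(it can have complex multiplication, or have isogenous coordinates).

**Theorem** (`result`). There is one null set `N ⊂ 𝓞_K^n × ℕ` (it contains at most `ε H^(n d + 1)` elements
of the box of size `H`, for each `ε > 0` and `H ≥ H₀ (ε)`, `d = [K : ℚ]`; it depends only on the `R_i` and on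
the basis which defines the boxes) such that for *all* subfields `F ⊂ ℂ`, all `m`, `q` and all families
`X` over `F` as above, for all `(s, t) ∉ N`, `t > 0`, with finitely many exceptions, and for all algebraic
integers `λ_i`, the image of `s + X_(t,λ)` under `Φ` has no atypical intersection over `F` with special
subvarieties of `Y(1)^n` (`NoAtypical`).

`NoAtypical F m Y` means that for each point `y` of `Y ∩ Z`, `Z` special of dimension `r`, the sets of
coordinates of `y` which are algebraically independent over `F` have at most `m + r - n` elements (so there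
is no such point if `r < n - m`). Now let `S` be a smooth irreducible locally closed subvariety of
dimension `m` of `s + X_(t,λ)` in `U`. We can assume that `F` is countable, and then every component `W`
of the inverse image of `Z` in `S` has a point whose coordinates generate a field of transcendence
degree `dim W` over `F` (the `λ_i` are algebraic); the same is true for its image in `Y(1)^n`. So
`dim W ≤ m + r - n`. In particular `Φ (S)` is not contained in a special subvariety `Z ≠ Y(1)^n`, so that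
`Γ \ D = Y(1)^n` is the quotient of the Mumford-Tate domain of `𝕍` on `S`, and
`codim Φ (W) ≥ codim Φ (S) + codim Γ' \ D'` for all special subvarieties `W` of `S`. So there are no atypical
special subvarieties of `S` outside of `S^sing`. If the analytic space `Φ (S)` is smooth, for example for
`R_i = T` and a smooth closed `S = s + X_(t,λ)`, then `HL (S, 𝕍^⊗)_atyp` is empty and Q1 is true for `S` and
`𝕍`; in general the inequality shows that the special subvarieties which are contained in `S^sing` have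
also at most the typical dimension.

**Relation to earlier results.** Our results `MP_22337f_ag.IntegralCentresOverC` (homothetic images of
arbitrary complex varieties, `R_i = T`, `s ∈ ℤ^n`), `MP_defd1c_ag.MoebiusTranslates` and
`MP_eeb1a4_ag.DegeneratingFamilies` (degenerating families, `R_i ∈ ℚ(T)`, `s ∈ ℤ^n`, `F` countable, the null
set depends on the family) are about centres `s` in `ℤ^n` and elliptic curves over `ℚ(T)`: their proofs
use that the centre has coordinates in `ℤ_p`, for the curves with coefficients in `ℚ`. New here: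
elliptic curves over `K(T)` and centres in `𝓞_K^n` for an arbitrary number field (for
`K ≠ ℚ` the centres in `ℤ^n` are a set of density zero, and most of the points of `𝓞_K^n` have no
coordinate in `ℚ`), together with one null set for all families over all subfields of `ℂ`.

**Idea of the proof.** We use primes `p` which split completely in `K`: they have a homomorphism
`ρ : 𝓞_K → 𝔽_p`, and all embeddings `Φ : ℂ → ℂ_p` (extensions of one embedding of the algebraic numbers)
satisfy `Φ (σ (c)) ≡ ρ (c)`. The sum of their reciprocals is divergent (Chebotarev's theorem for the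
splitting field of a polynomial, in the library). If such a prime divides `t` all points of
`X_(t,λ)` have at most `m` coordinates with `|x_i|^(p-1) ≥ |p|`, and the other coordinates
`R_i (s_i + x_i)` are near to integers `s'_i` with `s'_i ≡ R_i (s_i)`; if `(s'_i) mod p` is not in an exceptional
set of `O (p^(n-1/2+ε))` classes (Kronecker's congruence, class numbers) these are not isogenous to each
other. Exceptional coordinates which are singular moduli are different for different `p`. The
preimages of the exceptional classes under `𝓞_K^n → 𝔽_p^n` and `R_i` are small, and a sieve shows that almost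
all pairs `(s, t)` have enough good primes.
-/

set_option autoImplicit false

namespace Pool.Agent.Results.MP_0704bf_ag.NumberFieldCentres

open UpperHalfPlane H294ZP Polynomial NumberField

/-- A special subvariety of dimension `r` of `Y(1)^n`: a map `cls` from the coordinates onto `r`
classes (`none` for the constant coordinates), an integral matrix of positive determinant for each
coordinate, and a CM point for each coordinate. -/
structure SpecialVariety (n r : ℕ) where
  cls : Fin n → Option (Fin r)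
  surj : ∀ l : Fin r, ∃ i, cls i = some l
  mat : Fin n → Matrix (Fin 2) (Fin 2) ℤ
  det_pos : ∀ i, 0 < (mat i).det
  cm : Fin n → ℍ
  isCM : ∀ i, IsCM (cm i)

/-- The points of a special subvariety: the constant coordinates are the singular moduli
`j (cm i)`, the other coordinates are `j (g_i z_l)`, where `l` is the class of `i`, `g_i = mat i` and
`z_1, …, z_r` are free parameters in the upper half plane. -/
def SpecialVariety.locus {n r : ℕ} (Z : SpecialVariety n r) : Set (Fin n → ℂ) :=
  {x | ∃ z : Fin r → ℍ, ∀ i, (Z.cls i = none → x i = jj (Z.cm i)) ∧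
    ∀ l, Z.cls i = some l → ∃ w : ℍ,
      (w : ℂ) * (Z.mat i 1 0 * z l + Z.mat i 1 1) = Z.mat i 0 0 * z l + Z.mat i 0 1 ∧ x i = jj w}

/-- For each special subvariety `Z` of dimension `r`, and each point `y` of `Y ∩ Z`: families of
coordinates which are algebraically independent over `F` have at most `m + r - n` elements (in
particular there is no such point if `m + r < n`). -/
def NoAtypical {n : ℕ} (F : Subfield ℂ) (m : ℕ) (Y : Set (Fin n → ℂ)) : Prop :=
  ∀ (r : ℕ) (Z : SpecialVariety n r), ∀ y ∈ Y, y ∈ Z.locus →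
    ∀ W : Finset (Fin n), AlgebraicIndependent F (fun i : W => y i) → n + W.card ≤ m + r

/-- A family of subsets of `ℂ^n` of dimension `m` over the field `F`, with parameters `t ∈ ℕ`, `λ ∈ ℂ^q`,
which degenerates for `t = 0` to the union of the coordinate subspaces of dimension `m`: for each set
`J` of `m + 1` coordinates there is an equation
`lead_J ∏_(i ∈ J) x_i ^ (expo_J i) + t rest_J (λ, x) = 0`, `0 ≠ lead_J ∈ F`, with a polynomial `rest_J`
over `F` of degree at most `expo_J i` in `x_i`. -/
structure Family (F : Subfield ℂ) (n q m : ℕ) where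
  expo : Finset (Fin n) → Fin n → ℕ
  lead : Finset (Fin n) → F
  rest : Finset (Fin n) → MvPolynomial (Fin q ⊕ Fin n) F
  expo_eq_zero : ∀ J i, i ∉ J → expo J i = 0
  lead_ne_zero : ∀ J, lead J ≠ 0
  degree_le : ∀ J i, (rest J).degreeOf (Sum.inr i) ≤ expo J i

/-- The member of the family with the parameters `t, λ`. -/
def Family.member {F : Subfield ℂ} {n q m : ℕ} (X : Family F n q m) (t : ℕ) (lam : Fin q → ℂ) :
    Set (Fin n → ℂ) :=
  {x | ∀ J : Finset (Fin n), J.card = m + 1 →
    (X.lead J : ℂ) * ∏ i, x i ^ X.expo J i +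
      (t : ℂ) * MvPolynomial.aeval (Sum.elim lam x) (X.rest J) = 0}

section

variable {K : Type} [Field K] [NumberField K]

/-- The numerator and the denominator of a rational function are linearly independent, that is, the
rational function is not constant. -/
def Nonconstant (a b : (𝓞 K)[X]) : Prop :=
  ∀ c d : 𝓞 K, Polynomial.C c * a = Polynomial.C d * b → c = 0 ∧ d = 0

/-- The value at `z ∈ ℂ` of a polynomial over the integers of `K`, for the embedding `σ`. -/
noncomputable def value (σ : K →+* ℂ) (g : (𝓞 K)[X]) (z : ℂ) : ℂ :=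
  (g.map (σ.comp (algebraMap (𝓞 K) K))).eval z

/-- The image of the translate `s + X` under the rational functions `R_i = num_i / den_i`. -/
def image {n : ℕ} (σ : K →+* ℂ) (num den : Fin n → (𝓞 K)[X]) (s : Fin n → 𝓞 K)
    (X : Set (Fin n → ℂ)) : Set (Fin n → ℂ) :=
  {y | ∃ x ∈ X, ∀ i, value σ (den i) (σ (s i) + x i) ≠ 0 ∧
    y i * value σ (den i) (σ (s i) + x i) = value σ (num i) (σ (s i) + x i)}

/-- The parameters `(s, t)` of size at most `H`: `t ≤ H`, and the coordinates of the `s_i` with respect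
to the integral basis `ω` have absolute value at most `H`. -/
def box {n d : ℕ} (ω : Module.Basis (Fin d) ℤ (𝓞 K)) (H : ℕ) : Set ((Fin n → 𝓞 K) × ℕ) :=
  {q | (∀ i k, |ω.repr (q.1 i) k| ≤ (H : ℤ)) ∧ q.2 ≤ H}

/-- `N` has density zero in `𝓞_K^n × ℕ`. The box has about `(2 H)^(n d) H` elements. -/
def DensityZero {n d : ℕ} (ω : Module.Basis (Fin d) ℤ (𝓞 K)) (N : Set ((Fin n → 𝓞 K) × ℕ)) : Prop :=
  ∀ ε : ℝ, 0 < ε → ∃ H₀ : ℕ, ∀ H : ℕ, H₀ ≤ H →
    ((N ∩ box ω H).ncard : ℝ) ≤ ε * (H : ℝ) ^ (n * d + 1)

end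

open Pool.Agent.H882 Pool.Agent.Y226

theorem indep_restrict {F₀ F : Subfield ℂ} (h : F₀ ≤ F) {ι : Type} {y : ι → ℂ}
    (hy : AlgebraicIndependent F y) : AlgebraicIndependent F₀ y := by
  let : Algebra F₀ F := (Subfield.inclusion h).toAlgebra
  have : IsScalarTower F₀ F ℂ := IsScalarTower.of_algebraMap_eq fun x => rfl
  exact hy.restrictScalars (algebraMap F₀ F).injective

/-- The theorem. -/
theorem result (K : Type) [Field K] [NumberField K] (σ : K →+* ℂ) (d : ℕ)
    (ω : Module.Basis (Fin d) ℤ (𝓞 K)) (n : ℕ) (num den : Fin n → (𝓞 K)[X])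
    (hR : ∀ i, Nonconstant (num i) (den i)) :
    ∃ N : Set ((Fin n → 𝓞 K) × ℕ), DensityZero ω N ∧
      ∀ (F : Subfield ℂ) (m q : ℕ) (X : Family F n q m), ∃ T : ℕ, ∀ (s : Fin n → 𝓞 K) (t : ℕ),
        0 < t → (s, t) ∉ box ω T → (s, t) ∉ N →
          ∀ lam : Fin q → ℂ, (∀ i, IsIntegral ℤ (lam i)) →
            NoAtypical F m (image σ num den s (X.member t lam)) := by
  classical
  obtain ⟨E, Γ, hE, hΓ, hΓ2, hcore⟩ := core_all_w n
  obtain ⟨f, D, hfm, hfd, hfs, hD0, hnear⟩ := near_all K
  -- the embedding into the algebraic numbers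
  have halg : ∀ c : K, σ c ∈ QA := fun c =>
    mem_algebraicClosure_iff.2
      ((Algebra.IsAlgebraic.isAlgebraic (R := ℚ) c).algHom σ.toRatAlgHom)
  obtain ⟨ι, hι⟩ : ∃ ι : K →+* QA, ∀ c, ((ι c : QA) : ℂ) = σ c :=
    ⟨{ toFun := fun c => ⟨σ c, halg c⟩
       map_one' := Subtype.ext (map_one σ)
       map_mul' := fun a b => Subtype.ext (map_mul σ a b)
       map_zero' := Subtype.ext (map_zero σ)
       map_add' := fun a b => Subtype.ext (map_add σ a b) }, fun _ => rfl⟩
  have hd : 0 < d := by
    have : Nontrivial (𝓞 K) := inferInstance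
    have h1 : Nonempty (Fin d) := ω.index_nonempty
    exact Fin.pos_iff_nonempty.2 h1
  choose Br hBr using fun i => rk_fib (a := num i) (b := den i) (hR i)
  obtain ⟨c, hc⟩ : ∃ c : ℕ, ∀ i, 2 * (max (num i).natDegree (den i).natDegree) ≤ c :=
    ⟨∑ i, 2 * (max (num i).natDegree (den i).natDegree), fun i => Finset.single_le_sum
      (f := fun i => 2 * (max (num i).natDegree (den i).natDegree))
      (fun _ _ => Nat.zero_le _) (Finset.mem_univ i)⟩
  obtain ⟨Be, hBe⟩ := small_EK (d := d) (c := c) hd E (small_E E hE)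
  obtain ⟨B₁, hB₁⟩ : ∃ B₁ : ℕ, B₁ = 3 + Be + D.natAbs + ∑ i, Br i := ⟨_, rfl⟩
  have hBrle : ∀ i, Br i ≤ B₁ := fun i => by
    have := Finset.single_le_sum (f := Br) (fun _ _ => Nat.zero_le _) (Finset.mem_univ i)
    omega
  -- the primes
  obtain ⟨P, hPdef⟩ : ∃ P : Set ℕ, P = {p | p.Prime ∧ B₁ < p ∧ SplP f p} := ⟨_, rfl⟩
  have hPp : ∀ p ∈ P, p.Prime := fun p hp => by
    rw [hPdef] at hp
    exact hp.1
  have hPdvg : Dvg P := by
    refine (dvg_split f hfm hfd hfs).mono' B₁ fun p hp hlt => ?_
    rw [hPdef]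
    exact ⟨hp.1, hlt, hp.2⟩
  -- the data at the primes
  have hdata : ∀ p : ℕ, ∃ (w : Fin d → ZMod p) (r : Fin n → ZMod p → ZMod p)
      (T : Fin n → Set (ZMod p)), p ∈ P → ∃ ρ : 𝓞 K →+* ZMod p, (∀ k, w k = ρ (ω k)) ∧
        (∀ i x, r i x = rk ρ (num i) (den i) x) ∧
        (∀ i, T i = {x | ((den i).map ρ).eval x = 0}) ∧
        ∃ (C : Type) (_ : NormedField C) (_ : IsUltrametricDist C) (_ : CompleteSpace C)
          (_ : CharZero C) (_ : IsAlgClosed C) (φ₀ : QA →+* C), ‖(p : C)‖ = (p : ℝ)⁻¹ ∧
          CoreCW n p (E p) (Γ p) φ₀ ∧ NearK (φ₀.comp ι) ρ := by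
    intro p
    by_cases hp : p ∈ P
    · have hp' := hp
      rw [hPdef] at hp'
      obtain ⟨h1, h2, h3⟩ := hp'
      obtain ⟨C, i1, i2, i3, i4, i5, φ₀, hpC, hmain⟩ := hcore p h1 (by omega)
      have hp1 : ‖(p : C)‖ < 1 := by
        rw [hpC]
        exact inv_lt_one_of_one_lt₀ (by exact_mod_cast h1.one_lt)
      have hp0 : 0 < ‖(p : C)‖ := by
        rw [hpC]
        exact inv_pos.2 (by exact_mod_cast h1.pos)
      have hpD : ¬ (p : ℤ) ∣ D := by
        intro h
        have h4 := Nat.le_of_dvd (Int.natAbs_pos.2 hD0) (Int.natCast_dvd.1 h)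
        omega
      obtain ⟨ρ, hρ⟩ := hnear p h1 (by omega) hpD h3 C hp1 hp0 (φ₀.comp ι)
      exact ⟨fun k => ρ (ω k), fun i x => rk ρ (num i) (den i) x,
        fun i => {x | ((den i).map ρ).eval x = 0}, fun _ => ⟨ρ, fun _ => rfl, fun _ _ => rfl,
          fun _ => rfl, C, i1, i2, i3, i4, i5, φ₀, hpC, hmain, hρ⟩⟩
    · exact ⟨fun _ => 0, fun _ _ => 0, fun _ => ∅, fun h => absurd h hp⟩
  choose w r T hwrT using hdata
  have hfib : ∀ p ∈ P, ∀ i (β : ZMod p), {x | r p i x = β}.ncard ≤ c := by
    intro p hp i β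
    obtain ⟨ρ, -, h2, -, -⟩ := hwrT p hp
    have hp' := hp
    rw [hPdef] at hp'
    have h3 := ((hBr i p hp'.1 (lt_of_le_of_lt (hBrle i) hp'.2.1) ρ).1 β).trans (hc i)
    have e : {x | r p i x = β} = {x | rk ρ (num i) (den i) x = β} := by
      ext x
      show r p i x = β ↔ _
      rw [h2]
      exact Iff.rfl
    rw [e]
    exact h3
  have hfib0 : ∀ p ∈ P, ∀ i, (T p i).ncard ≤ c := by
    intro p hp i
    obtain ⟨ρ, -, -, h2, -⟩ := hwrT p hp
    have hp' := hp
    rw [hPdef] at hp'
    rw [h2]
    exact ((hBr i p hp'.1 (lt_of_le_of_lt (hBrle i) hp'.2.1) ρ).2).trans (hc i)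
  have hunit : ∀ p ∈ P, ∃ k₀, w p k₀ ≠ 0 := by
    intro p hp
    obtain ⟨ρ, h1, -⟩ := hwrT p hp
    obtain ⟨k, hk⟩ := exists_unit_coord ω (hPp p hp) ρ
    exact ⟨k, by rw [h1]; exact hk⟩
  let E' : ∀ p : ℕ, Set (Fin (n * d) → ZMod p) := fun p => {u | LL (w p) u ∈ EQ (r p) (T p) (E p)}
  let Bp : ∀ p q : ℕ, Set ((Fin (n * d) → ZMod p) × (Fin (n * d) → ZMod q)) := fun p q =>
    {uv | ∃ i z, z ∈ Γ p (r p i (LL (w p) uv.1 i)) ∧ z ∈ Γ q (r q i (LL (w q) uv.2 i))}
  obtain ⟨N₀, hN₀, hN₀B⟩ := null_g1 hPp hPdvg E' Bp (κ := 1 / 2) (C := n * c) (by norm_num)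
    (by norm_num) (by positivity) 0
    (fun p hp _ => by
      obtain ⟨k₀, hk₀⟩ := hunit p hp
      have hp' := hp
      rw [hPdef] at hp'
      exact hBe p hp'.1 (by have := hp'.2.1; omega) (w p) k₀ hk₀ (r p) (T p) (hfib p hp)
        (hfib0 p hp))
    (fun p hp q hq _ _ _ => by
      obtain ⟨k₀, hk₀⟩ := hunit q hq
      have : NeZero p := ⟨(hPp p hp).ne_zero⟩
      have h1 := pair_LL (n := n) (hPp q hq) hd (w p) (w q) hk₀ (r p) (r q) (Γ p) (Γ q)
        (fun a => (hΓ p a).1) (fun z a b => hΓ2 q z a b) (hfib q hq)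
      have h2 : ((Bp p q).ncard : ℝ) ≤ n * ((p : ℝ) ^ (n * d) * (c * (q : ℝ) ^ (n * d - 1))) := by
        exact_mod_cast h1
      have hq0 : (0 : ℝ) < q := by exact_mod_cast (hPp q hq).pos
      refine h2.trans ?_
      rw [le_div_iff₀ hq0]
      rcases Nat.eq_zero_or_pos n with hn | hn
      · subst hn
        simp
      · have hnd : 0 < n * d := Nat.mul_pos hn hd
        have e : (q : ℝ) ^ (n * d) = (q : ℝ) ^ (n * d - 1) * q := by
          rw [← pow_succ]
          congr 1
          omega
        rw [e]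
        apply le_of_eq
        ring) (n + 1)
  refine ⟨{a | (crd ω a.1, a.2) ∈ N₀}, fun ε hε => ?_, fun F m q X => ?_⟩
  · obtain ⟨H₀, hH₀⟩ := hN₀ ε hε
    refine ⟨H₀, fun H hH => le_trans ?_ (hH₀ H hH)⟩
    have hfin : {q : (Fin (n * d) → ℤ) × ℕ | q ∈ N₀ ∧ (∀ i, |q.1 i| ≤ (H : ℤ)) ∧
        q.2 ≤ H}.Finite := by
      refine ((bx (n * d) H ×ˢ Finset.range (H + 1) :
        Finset ((Fin (n * d) → ℤ) × ℕ)).finite_toSet).subset ?_
      rintro q ⟨-, h1, h2⟩
      rw [Finset.mem_coe, Finset.mem_product]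
      exact ⟨mem_bx.2 h1, Finset.mem_range.2 (Nat.lt_succ_of_le h2)⟩
    have h1 := Set.ncard_le_ncard_of_injOn (s := {a : (Fin n → 𝓞 K) × ℕ |
      (crd ω a.1, a.2) ∈ N₀} ∩ box ω H) (fun a => (crd ω a.1, a.2))
      (t := {q : (Fin (n * d) → ℤ) × ℕ | q ∈ N₀ ∧ (∀ i, |q.1 i| ≤ (H : ℤ)) ∧ q.2 ≤ H})
      (by
        rintro ⟨s, t⟩ ⟨h1, h2, h3⟩
        exact ⟨h1, fun j => h2 _ _, h3⟩)
      (by
        rintro ⟨s, t⟩ _ ⟨s', t'⟩ _ h
        rw [Prod.mk.injEq] at h
        rw [Prod.mk.injEq]
        exact ⟨crd_inj ω h.1, h.2⟩) hfin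
    exact_mod_cast h1
  -- the family
  let S : Finset ℂ := (Finset.univ.image fun J : Finset (Fin n) => ((X.lead J : F) : ℂ)) ∪
    Finset.univ.biUnion fun J : Finset (Fin n) =>
      (X.rest J).support.image fun v => (((X.rest J).coeff v : F) : ℂ)
  have hne : ∀ c : F, c ≠ 0 → (c : ℂ) ≠ 0 := fun c hc h => hc (Subtype.ext h)
  have hS0 : ∀ b ∈ S, b ≠ 0 := by
    intro b hb
    rcases Finset.mem_union.1 hb with hb | hb
    · obtain ⟨J, -, rfl⟩ := Finset.mem_image.1 hb
      exact hne _ (X.lead_ne_zero J)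
    · obtain ⟨J, -, hJ⟩ := Finset.mem_biUnion.1 hb
      obtain ⟨v, hv, rfl⟩ := Finset.mem_image.1 hJ
      exact hne _ (MvPolynomial.mem_support_iff.1 hv)
  have hSF : ∀ b ∈ S, b ∈ F := by
    intro b hb
    rcases Finset.mem_union.1 hb with hb | hb
    · obtain ⟨J, -, rfl⟩ := Finset.mem_image.1 hb
      exact Subtype.property _
    · obtain ⟨J, -, hJ⟩ := Finset.mem_biUnion.1 hb
      obtain ⟨v, hv, rfl⟩ := Finset.mem_image.1 hJ
      exact Subtype.property _
  obtain ⟨F₀, hF₀⟩ : ∃ F₀ : Subfield ℂ, F₀ = Subfield.closure (S : Set ℂ) := ⟨_, rfl⟩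
  have hF₀F : F₀ ≤ F := by
    rw [hF₀, Subfield.closure_le]
    exact fun b hb => hSF b hb
  have hF₀c : Cardinal.mk F₀ ≤ Cardinal.aleph0 := by
    rw [hF₀]
    refine (Subfield.cardinalMk_closure_le_max _).trans (max_le ?_ le_rfl)
    exact (Cardinal.lt_aleph0_of_finite _).le
  obtain ⟨B, hB⟩ := emb_units hF₀c S hS0 fun b hb => by
    rw [hF₀]
    exact Subfield.subset_closure hb
  obtain ⟨T', hT'⟩ := hN₀B (B + B₁ + (∑ J, ∑ i, X.expo J i) + 1)
  refine ⟨T', fun s t ht hbox hst lam hlam => ?_⟩
  obtain ⟨g, hginj, hg, hgΓ⟩ := hT' (crd ω s) t ht (by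
    by_contra hcon
    rw [not_or] at hcon
    push Not at hcon
    apply hbox
    refine ⟨fun i k => ?_, hcon.1.le⟩
    have h1 := hcon.2 (finProdFinEquiv (i, k))
    unfold crd at h1
    rw [Equiv.symm_apply_apply] at h1
    exact h1.le) hst
  intro rr Z y hy hyZ W hind
  obtain ⟨x, hx, hx1⟩ := hy
  obtain ⟨l, hl⟩ : ∃ l : Fin (n + 1), ∀ i, y i ∉
      Γ (g l) (r (g l) i (LL (w (g l)) (red (g l) (crd ω s)) i)) := by
    by_contra hno
    push Not at hno
    choose e he using hno
    obtain ⟨l, l', hll, hgl⟩ := Fintype.exists_ne_map_eq_of_card_lt e (by simp)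
    have h1 := he l
    have h2 := he l'
    rw [← hgl] at h2
    exact hgΓ l l' hll ⟨e l, y (e l), h1, h2⟩
  obtain ⟨p, hpg⟩ : ∃ p, p = g l := ⟨_, rfl⟩
  obtain ⟨hpP, hpB, hpt, hpE⟩ := hg l
  rw [← hpg] at hpP hpB hpt hpE hl
  obtain ⟨ρ, hw, hr, hTT, C', i1, i2, i3, i4, i5, φ₀, hpC, hCC, hρ⟩ := hwrT p hpP
  have p1 : p.Prime := hPp p hpP
  have : Fact p.Prime := ⟨p1⟩
  have hp1 : ‖(p : C')‖ < 1 := by
    rw [hpC]
    exact inv_lt_one_of_one_lt₀ (by exact_mod_cast p1.one_lt)
  have hp0 : 0 < ‖(p : C')‖ := by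
    rw [hpC]
    exact inv_pos.2 (by exact_mod_cast p1.pos)
  have hLL : ∀ i, LL (w p) (red p (crd ω s)) i = ρ (s i) := by
    intro i
    have e : w p = fun k => ρ (ω k) := funext hw
    rw [e]
    exact LL_crd ω ρ s i
  have hpE' : ¬ ((fun i => r p i (LL (w p) (red p (crd ω s)) i)) ∈ E p ∨
      ∃ i, LL (w p) (red p (crd ω s)) i ∈ T p i) := hpE
  rw [not_or] at hpE'
  obtain ⟨p8, p9⟩ := hpE'
  push Not at p9
  -- the centre
  obtain ⟨s', hs'⟩ : ∃ s' : Fin n → ℤ, ∀ i, (s' i : ZMod p) = rk ρ (num i) (den i) (ρ (s i)) :=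
    ⟨fun i => ((rk ρ (num i) (den i) (ρ (s i))).val : ℤ), fun i => by
      push_cast
      rw [ZMod.natCast_zmod_val]⟩
  have hden : ∀ i, ((den i).map ρ).eval (ρ (s i)) ≠ 0 := by
    intro i h
    apply p9 i
    rw [hTT, hLL]
    exact h
  refine pure_local p1 φ₀ hpC hCC (F := F₀) (m := m) y (fun {_} _ y' hy' a => ?_)
    ⟨Z.cls, Z.surj, Z.mat, Z.det_pos, Z.cm, Z.isCM⟩ hyZ W (indep_restrict hF₀F hind)
  obtain ⟨Φ, g1, g2, g3⟩ := hB p p1 (by omega) C' φ₀ hpC y' hy' a
  have hρΦ : NearK (Φ.comp σ) ρ := by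
    intro c k hk
    have h1 := hρ c k hk
    have h2 : (Φ.comp σ) (c : K) = (φ₀.comp ι) (c : K) := by
      show Φ (σ c) = φ₀ (ι c)
      rw [← g1, hι]
    rw [h2]
    exact h1
  refine ⟨Φ, g1, g2, Finset.univ.filter fun i => ¬ ‖Φ (x i)‖ ^ (p - 1) < ‖(p : C')‖,
    s', ?_, ?_, fun i => ?_, fun i hi => ?_⟩
  · by_contra hcard
    rw [not_le] at hcard
    obtain ⟨J, hJ1, hJ2⟩ := Finset.exists_subset_card_eq (Nat.succ_le_of_lt hcard)
    have hmem := hx J hJ2
    have key : ∃ i ∈ J, ‖Φ (x i)‖ ^ (p - 1) < ‖(p : C')‖ := by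
      refine one_J (p := p) (N := 0) (M := 0) hp1 hp0 Φ J (X.expo J) (X.expo_eq_zero J)
        (X.lead J : ℂ) ?_
        (MvPolynomial.rename Sum.inr (MvPolynomial.map (algebraMap F ℂ) (X.rest J))) ?_ ?_
        (fun i => i.elim0) (fun i => i.elim0) lam
        (fun i => norm_le_one_of_isIntegral Φ (hlam i)) x (t : ℂ) ?_ ?_ ?_
      · exact g3 _ (Finset.mem_union_left _ (Finset.mem_image_of_mem _ (Finset.mem_univ J)))
      · intro v hv
        obtain ⟨v', rfl, hv'⟩ := MvPolynomial.coeff_rename_ne_zero _ _ _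
          (MvPolynomial.mem_support_iff.1 hv)
        rw [MvPolynomial.coeff_rename_mapDomain _ Sum.inr_injective, MvPolynomial.coeff_map]
        rw [MvPolynomial.coeff_map] at hv'
        refine (g3 _ (Finset.mem_union_right _ (Finset.mem_biUnion.2 ⟨J, Finset.mem_univ J,
          Finset.mem_image.2 ⟨v', ?_, rfl⟩⟩))).le
        rw [MvPolynomial.mem_support_iff]
        intro h
        rw [h, map_zero] at hv'
        exact hv' rfl
      · intro i
        rw [MvPolynomial.degreeOf_rename_of_injective Sum.inr_injective,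
          MvPolynomial.degreeOf_le_iff]
        intro v hv
        exact (MvPolynomial.monomial_le_degreeOf _
          (MvPolynomial.support_map_subset _ _ hv)).trans (X.degree_le J i)
      · obtain ⟨c', hc'⟩ := hpt
        rw [hc', map_natCast]
        push_cast
        rw [norm_mul]
        refine mul_le_of_le_one_right (norm_nonneg _) ?_
        simpa using IsUltrametricDist.norm_intCast_le_one C' (c' : ℤ)
      · rw [MvPolynomial.eval_rename, MvPolynomial.eval_map, ← MvPolynomial.aeval_def]
        exact hmem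
      · have h1 : ∑ i, X.expo J i ≤ ∑ J, ∑ i, X.expo J i :=
          Finset.single_le_sum (f := fun J => ∑ i, X.expo J i) (fun _ _ => Nat.zero_le _)
            (Finset.mem_univ J)
        omega
    obtain ⟨i, hi, hi'⟩ := key
    exact (Finset.mem_filter.1 (hJ1 hi)).2 hi'
  · intro hE'
    apply p8
    have e1 : (fun i => r p i (LL (w p) (red p (crd ω s)) i)) = fun i => (s' i : ZMod p) := by
      funext i
      rw [hs', hr, hLL]
    rw [e1]
    exact hE'
  · rw [hs']
    have h1 := hl i
    rw [hr, hLL] at h1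
    exact h1
  · have hi' : ‖Φ (x i)‖ ^ (p - 1) < ‖(p : C')‖ := by
      by_contra h1
      exact hi (Finset.mem_filter.2 ⟨Finset.mem_univ _, h1⟩)
    exact RK_near p1 hp1 σ Φ hρΦ (num i) (den i) (s i) (s' i) (hden i) (hs' i) hi' (hx1 i).2

end Pool.Agent.Results.MP_0704bf_ag.NumberFieldCentres
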